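import Pool.Agent.R228.ND.D

/-!
# Quasiconformal maps raising the Nagata dimension from at most `n - 1` to `n`
-/

set_option autoImplicit false

namespace Pool.Agent.Results.MP_a3803f_an.RaisesToFull

open Pool.Agent.R228.ND

/-- Affirmative answer to Q1, for every `n ≥ 3`. -/
theorem result (n : ℕ) (hn : 3 ≤ n) :
    ∃ (Ω Ω' : Set (EuclideanSpace ℝ (Fin n)))
      (f : EuclideanSpace ℝ (Fin n) → EuclideanSpace ℝ (Fin n))
      (E : Set (EuclideanSpace ℝ (Fin n))),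
      QCDiffeo f Ω Ω' ∧ E ⊆ Ω ∧ nagataDim E ≤ (n - 1 : ℕ) ∧ nagataDim (f '' E) = n := by
  obtain ⟨m, rfl⟩ : ∃ m, n = m + 1 := ⟨n - 1, by omega⟩
  exact main m

end Pool.Agent.Results.MP_a3803f_an.RaisesToFull
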